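import Pool.Agent.CYE.StmtsG

/-! # Theorem K (MP_734b60_nt): the assembly of the squad CYE, abstract form.
All statements of the squad enter as hypotheses. -/

set_option autoImplicit false

namespace Pool.Agent.CYE.H25

open Pool.Agent.CYE

/-- The chain of the implications. -/
theorem chain
    (baf : BafStmt) (fcm : BafStmt → FcmStmt) (mn : BafStmt → MinStmt) (evl : EvlStmt)
    (aff : FcmStmt → AffStmt) (cjm : BafStmt → EvlStmt → CjmStmt)
    (rbb : BafStmt → FcmStmt → MinStmt → AffStmt → RbbStmt) (wrg : WrgStmt) (rpv : RpvStmt)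
    (ari : RbbStmt → WrgStmt → RpvStmt → AriStmt)
    (spo : EvlStmt → AffStmt → SpoStmt) (sch : SchStmt) (sci : SciStmt) (van : VanStmt)
    (glb : EvlStmt → GlbStmt) (cls : EvlStmt → SpoStmt → SciStmt → GlbStmt → ClsStmt)
    (gdc : CjmStmt → GdcStmt)
    (exc : BafStmt → AriStmt → SpoStmt → SchStmt → VanStmt → ClsStmt → GdcStmt → ExcStmt)
    (fxn : BafStmt → ExcStmt → FxnStmt)
    (pel : PelStmt) (pei : PelStmt → SpoStmt → PeiStmt)
    (yex : YexStmt) (coe : BafStmt → AffStmt → YexStmt → CoeStmt)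
    (col : EvlStmt → AffStmt → ColStmt) (swz : SwzStmt) (gen : SwzStmt → GenStmt)
    (dif : EvlStmt → AffStmt → ColStmt → CoeStmt → DifStmt) (cnt : CntStmt) (unc : UncStmt)
    (tyc : BafStmt → FxnStmt → PeiStmt → GenStmt → DifStmt → CntStmt → UncStmt → TycStmt)
    (dgb : BafStmt → FcmStmt → MinStmt → EvlStmt → CjmStmt → DgbStmt)
    (deg : DegStmt) (sie : SieStmt) (nu2 : Nu2Stmt)
    (fi2 : DegStmt → BafStmt → SieStmt → TycStmt → DgbStmt → Nu2Stmt → Fi2Stmt)
    (th2 : Fi2Stmt → Th2Stmt) : Th2Stmt := by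
  have hf := fcm baf
  have hm := mn baf
  have ha := aff hf
  have hc := cjm baf evl
  have hr := rbb baf hf hm ha
  have hari := ari hr wrg rpv
  have hspo := spo evl ha
  have hcls := cls evl hspo sci (glb evl)
  have hgdc := gdc hc
  have hexc := exc baf hari hspo sch van hcls hgdc
  have hfxn := fxn baf hexc
  have hpei := pei pel hspo
  have hcoe := coe baf ha yex
  have hcol := col evl ha
  have hgen := gen swz
  have hdif := dif evl ha hcol hcoe
  have htyc := tyc baf hfxn hpei hgen hdif cnt unc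
  have hdgb := dgb baf hf hm evl hc
  exact th2 (fi2 deg baf sie htyc hdgb nu2)

end Pool.Agent.CYE.H25
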