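import Pool.Agent.Common_Mertens.Mertens

/-! # Almost all integers have a prime factor which is large in terms of the number of prime factors

Auxiliary file for MP_734b60_nt. -/

set_option autoImplicit false

open Finset

namespace Pool.Agent.CYE.H25

theorem sum_pow_omega (N : ℕ) :
    ∑ n ∈ Ioc 0 N, ((3:ℝ)/2) ^ n.primeFactors.card ≤
      N * ∏ p ∈ Nat.primesLE N, (1 + (1/2 : ℝ) / p) := by
  classical
  rw [Finset.prod_one_add, Finset.mul_sum]
  have h1 : ∀ n ∈ Ioc 0 N, ((3:ℝ)/2) ^ n.primeFactors.card =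
      ∑ S ∈ (Nat.primesLE N).powerset, if S ⊆ n.primeFactors then ((1:ℝ)/2) ^ S.card else 0 := by
    intro n hn
    rw [mem_Ioc] at hn
    have hsub : n.primeFactors ⊆ Nat.primesLE N := by
      intro p hp
      rw [Nat.mem_primesLE]
      exact ⟨(Nat.le_of_mem_primeFactors hp).trans hn.2, Nat.prime_of_mem_primeFactors hp⟩
    rw [← Finset.sum_filter]
    have h2 : (Nat.primesLE N).powerset.filter (fun S => S ⊆ n.primeFactors) =
        n.primeFactors.powerset := by
      ext S
      simp only [mem_filter, mem_powerset]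
      exact ⟨fun h => h.2, fun h => ⟨h.trans hsub, h⟩⟩
    rw [h2]
    have h3 := Finset.prod_one_add (f := fun _ : ℕ => (1:ℝ)/2) n.primeFactors
    simp only [prod_const] at h3
    rw [← h3]
    norm_num
  rw [sum_congr rfl h1, sum_comm]
  apply sum_le_sum
  intro S hS
  rw [mem_powerset] at hS
  have hSp : ∀ p ∈ S, p.Prime := fun p hp => Nat.prime_of_mem_primesLE (hS hp)
  have hd : ∀ n ∈ (Ioc 0 N).filter (fun n => S ⊆ n.primeFactors), n ∈
      (Ioc 0 N).filter (fun n => (∏ p ∈ S, p) ∣ n) := by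
    intro n hn
    rw [mem_filter] at hn ⊢
    refine ⟨hn.1, ?_⟩
    exact (Finset.prod_dvd_prod_of_subset _ _ _ hn.2).trans (Nat.prod_primeFactors_dvd n)
  have hc : ((Ioc 0 N).filter (fun n => S ⊆ n.primeFactors)).card ≤ N / ∏ p ∈ S, p := by
    rw [← Nat.Ioc_filter_dvd_card_eq_div]
    exact card_le_card fun n hn => hd n hn
  have hpos : (0:ℝ) < ∏ p ∈ S, (p:ℝ) := prod_pos fun p hp => by exact_mod_cast (hSp p hp).pos
  have hc' : (((Ioc 0 N).filter (fun n => S ⊆ n.primeFactors)).card : ℝ) ≤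
      N / ∏ p ∈ S, (p:ℝ) := by
    calc (((Ioc 0 N).filter (fun n => S ⊆ n.primeFactors)).card : ℝ) ≤
        ((N / ∏ p ∈ S, p : ℕ) : ℝ) := by exact_mod_cast hc
      _ ≤ (N : ℝ) / ((∏ p ∈ S, p : ℕ) : ℝ) := Nat.cast_div_le
      _ = _ := by push_cast; rfl
  rw [← sum_filter, sum_const, nsmul_eq_mul, prod_div_distrib, prod_const]
  calc (((Ioc 0 N).filter (fun n => S ⊆ n.primeFactors)).card : ℝ) * (1/2) ^ S.card ≤
      (N / ∏ p ∈ S, (p:ℝ)) * (1/2) ^ S.card :=
        mul_le_mul_of_nonneg_right hc' (by positivity)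
    _ = _ := by ring

/-- Few integers have many prime factors. -/
theorem card_omega_gt : ∃ C : ℝ, 0 < C ∧ ∀ N : ℕ, 1 ≤ N → ∀ k : ℕ,
    (((Ioc 0 N).filter fun n => k < n.primeFactors.card).card : ℝ) * (3/2) ^ k ≤
      C * N * Real.sqrt (Real.log (N + 1)) := by
  obtain ⟨C, hC⟩ := Pool.Agent.Common_Mertens.sum_inv_le
  refine ⟨Real.exp (C / 2), Real.exp_pos _, fun N hN k => ?_⟩
  have hN1 : (1:ℝ) ≤ N := by exact_mod_cast hN
  have hlog : 0 < Real.log ((N:ℝ) + 1) := Real.log_pos (by linarith)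
  have h1 : (((Ioc 0 N).filter fun n => k < n.primeFactors.card).card : ℝ) * (3/2) ^ k ≤
      ∑ n ∈ Ioc 0 N, ((3:ℝ)/2) ^ n.primeFactors.card := by
    calc (((Ioc 0 N).filter fun n => k < n.primeFactors.card).card : ℝ) * (3/2) ^ k
        = ∑ n ∈ (Ioc 0 N).filter (fun n => k < n.primeFactors.card), ((3:ℝ)/2) ^ k := by
          rw [sum_const, nsmul_eq_mul]
      _ ≤ ∑ n ∈ (Ioc 0 N).filter (fun n => k < n.primeFactors.card),
            ((3:ℝ)/2) ^ n.primeFactors.card := by
          apply sum_le_sum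
          intro n hn
          exact pow_le_pow_right₀ (by norm_num) (mem_filter.mp hn).2.le
      _ ≤ _ := sum_le_sum_of_subset_of_nonneg (filter_subset _ _) fun _ _ _ => by positivity
  have h2 : ∏ p ∈ Nat.primesLE N, (1 + (1/2 : ℝ) / p) ≤
      Real.exp (C / 2) * Real.sqrt (Real.log (N + 1)) := by
    calc ∏ p ∈ Nat.primesLE N, (1 + (1/2 : ℝ) / p) ≤
        ∏ p ∈ Nat.primesLE N, Real.exp ((1/2 : ℝ) / p) := by
          apply prod_le_prod
          · intro p _
            positivity
          · intro p _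
            have := Real.add_one_le_exp ((1/2 : ℝ) / p)
            linarith
      _ = Real.exp (∑ p ∈ Nat.primesLE N, (1/2 : ℝ) / p) := (Real.exp_sum _ _).symm
      _ ≤ Real.exp ((Real.log (Real.log (N + 1)) + C) / 2) := by
          apply Real.exp_le_exp.mpr
          have := hC N hN
          have h3 : ∑ p ∈ Nat.primesLE N, (1/2 : ℝ) / p =
              (1/2) * ∑ p ∈ Nat.primesLE N, (1:ℝ) / p := by
            rw [mul_sum]
            apply sum_congr rfl
            intro p _
            ring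
          rw [h3]
          linarith
      _ = _ := by
          rw [add_div, Real.exp_add, mul_comm, Real.sqrt_eq_rpow, Real.rpow_def_of_pos hlog]
          ring_nf
  calc (((Ioc 0 N).filter fun n => k < n.primeFactors.card).card : ℝ) * (3/2) ^ k ≤ _ := h1
    _ ≤ _ := sum_pow_omega N
    _ ≤ N * (Real.exp (C / 2) * Real.sqrt (Real.log (N + 1))) :=
        mul_le_mul_of_nonneg_left h2 (by positivity)
    _ = _ := by ring

open scoped Classical in
/-- Few squarefree integers have only small prime factors. -/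
theorem card_smooth (N Y : ℕ) (hN : 1 ≤ N) (hY : 1 ≤ Y) :
    (((Ioc 0 N).filter fun n => Squarefree n ∧ N ≤ n ^ 2 ∧ ∀ p : ℕ, p.Prime → p ∣ n →
      p ≤ Y).card : ℝ) * (Real.log N / 2) ≤ N * (Real.log Y + Real.log 4) := by
  classical
  have hN1 : (1:ℝ) ≤ N := by exact_mod_cast hN
  set S := (Ioc 0 N).filter fun n => Squarefree n ∧ N ≤ n ^ 2 ∧ ∀ p : ℕ, p.Prime → p ∣ n →
      p ≤ Y with hS
  have h1 : (S.card : ℝ) * (Real.log N / 2) ≤ ∑ n ∈ S, ∑ p ∈ n.primeFactors, Real.log p := by
    rw [← nsmul_eq_mul, ← sum_const]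
    apply sum_le_sum
    intro n hn
    obtain ⟨hn0, hsq, hnN, -⟩ := mem_filter.mp hn
    rw [mem_Ioc] at hn0
    have h2 : ∑ p ∈ n.primeFactors, Real.log p = Real.log n := by
      rw [← Real.log_prod (fun p hp => by
        have := (Nat.prime_of_mem_primeFactors hp).pos
        positivity)]
      congr 1
      have := congrArg (Nat.cast : ℕ → ℝ) (Nat.prod_primeFactors_of_squarefree hsq)
      rw [Nat.cast_prod] at this
      exact this
    rw [h2]
    have h3 : Real.log N ≤ Real.log ((n:ℝ) ^ 2) :=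
      Real.log_le_log (by linarith) (by exact_mod_cast hnN)
    rw [Real.log_pow] at h3
    push_cast at h3
    linarith
  have h2 : ∑ n ∈ S, ∑ p ∈ n.primeFactors, Real.log p ≤
      ∑ n ∈ Ioc 0 N, ∑ p ∈ (Nat.primesLE Y), if p ∣ n then Real.log p else 0 := by
    calc ∑ n ∈ S, ∑ p ∈ n.primeFactors, Real.log p ≤
        ∑ n ∈ S, ∑ p ∈ (Nat.primesLE Y), if p ∣ n then Real.log p else 0 := by
          apply sum_le_sum
          intro n hn
          obtain ⟨hn0, hsq, hnN, hp⟩ := mem_filter.mp hn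
          rw [← sum_filter]
          apply sum_le_sum_of_subset_of_nonneg
          · intro p hpn
            have hpp := Nat.prime_of_mem_primeFactors hpn
            have hpd := Nat.dvd_of_mem_primeFactors hpn
            rw [mem_filter, Nat.mem_primesLE]
            exact ⟨⟨hp p hpp hpd, hpp⟩, hpd⟩
          · intro p _ _
            exact Real.log_natCast_nonneg p
      _ ≤ _ := by
          apply sum_le_sum_of_subset_of_nonneg (filter_subset _ _)
          intro n _ _
          apply sum_nonneg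
          intro p _
          split_ifs
          · exact Real.log_natCast_nonneg p
          · exact le_rfl
  have h3 : ∑ n ∈ Ioc 0 N, ∑ p ∈ (Nat.primesLE Y), (if p ∣ n then Real.log p else 0) ≤
      N * ∑ p ∈ Nat.primesLE Y, Real.log p / p := by
    rw [sum_comm, mul_sum]
    apply sum_le_sum
    intro p hp
    have hp0 : (0:ℝ) < p := by exact_mod_cast (Nat.prime_of_mem_primesLE hp).pos
    rw [← sum_filter, sum_const, nsmul_eq_mul, Nat.Ioc_filter_dvd_card_eq_div]
    have h4 : ((N / p : ℕ) : ℝ) ≤ N / p := Nat.cast_div_le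
    calc ((N / p : ℕ) : ℝ) * Real.log p ≤ (N / p) * Real.log p :=
          mul_le_mul_of_nonneg_right h4 (Real.log_natCast_nonneg p)
      _ = _ := by ring
  have h5 := Pool.Agent.Common_Mertens.sum_log_div_le hY
  calc (S.card : ℝ) * (Real.log N / 2) ≤ _ := h1
    _ ≤ _ := h2
    _ ≤ _ := h3
    _ ≤ _ := mul_le_mul_of_nonneg_left h5 (by positivity)

end Pool.Agent.CYE.H25
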