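import Pool.Agent.Helper25_CYE.Dens

/-! # Almost all integers have a prime factor which is large in terms of the number of prime factors

Auxiliary file for MP_734b60_nt. -/

set_option autoImplicit false

open Finset

namespace Pool.Agent.CYE.H25

/-- The exceptional squarefree numbers. -/
def Exc (n : ℕ) : Prop :=
  Squarefree n ∧ ∀ p : ℕ, p.Prime → p ∣ n →
    p < 2 ^ (30 * n.primeFactors.card * 2 ^ n.primeFactors.card)

theorem log_three_half : (39 : ℝ) / 100 ≤ Real.log (3 / 2) := by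
  have h1 := Real.exp_one_lt_d9
  have h2 : Real.exp 39 < (3 / 2 : ℝ) ^ 100 := by
    calc Real.exp 39 = Real.exp 1 ^ 39 := by rw [← Real.exp_nat_mul]; norm_num
      _ ≤ 2.7182818286 ^ 39 := pow_le_pow_left₀ (Real.exp_pos _).le h1.le _
      _ < _ := by norm_num
  have h3 : (39 : ℝ) < 100 * Real.log (3 / 2) := by
    calc (39 : ℝ) = Real.log (Real.exp 39) := (Real.log_exp _).symm
      _ < Real.log ((3 / 2 : ℝ) ^ 100) := Real.log_lt_log (Real.exp_pos _) h2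
      _ = _ := by rw [Real.log_pow]; norm_num
  linarith

open scoped Classical in
theorem exc_count : ∃ C : ℝ, 0 < C ∧ ∀ N : ℕ, 2 ≤ N →
    (((Ioc 0 N).filter Exc).card : ℝ) ≤ C * N / Real.log N ^ ((1:ℝ) / 50) := by
  obtain ⟨C, hC0, hC⟩ := card_omega_gt
  refine ⟨3 + (3 * C + 2000 + 1), by positivity, fun N hN => ?_⟩
  have hN2 : (2:ℝ) ≤ N := by exact_mod_cast hN
  set L := Real.log N with hL
  have hL0 : 0 < L := Real.log_pos (by linarith)
  have hLp : 0 < L ^ ((1:ℝ) / 50) := Real.rpow_pos_of_pos hL0 _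
  rw [le_div_iff₀ hLp]
  by_cases hL3 : L < 3
  · have h1 : (((Ioc 0 N).filter Exc).card : ℝ) ≤ N := by
      have := card_filter_le (Ioc 0 N) Exc
      rw [Nat.card_Ioc, Nat.sub_zero] at this
      exact_mod_cast this
    have h2 : L ^ ((1:ℝ) / 50) ≤ 3 := by
      calc L ^ ((1:ℝ) / 50) ≤ 3 ^ ((1:ℝ) / 50) := Real.rpow_le_rpow hL0.le hL3.le (by norm_num)
        _ ≤ 3 ^ (1:ℝ) := Real.rpow_le_rpow_of_exponent_le (by norm_num) (by norm_num)
        _ = 3 := Real.rpow_one 3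
    calc (((Ioc 0 N).filter Exc).card : ℝ) * L ^ ((1:ℝ) / 50) ≤ N * 3 :=
          mul_le_mul h1 h2 hLp.le (by positivity)
      _ ≤ _ := by nlinarith
  push Not at hL3
  have hlogL : 1 ≤ Real.log L := by
    rw [Real.le_log_iff_exp_le hL0]
    have := Real.exp_one_lt_d9
    linarith
  obtain ⟨k, hk⟩ : ∃ k, k = ⌊(4/3 : ℝ) * Real.log L⌋₊ := ⟨_, rfl⟩
  have hk1 : (k : ℝ) ≤ (4/3 : ℝ) * Real.log L := by rw [hk]; exact Nat.floor_le (by positivity)
  have hk2 : (4/3 : ℝ) * Real.log L < k + 1 := by rw [hk]; exact Nat.lt_floor_add_one _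
  obtain ⟨Y, hY⟩ : ∃ Y, Y = 2 ^ (30 * k * 2 ^ k) := ⟨_, rfl⟩
  have hY1 : 1 ≤ Y := by rw [hY]; exact Nat.one_le_two_pow
  -- the three parts
  have hsub : (Ioc 0 N).filter Exc ⊆ ((Ioc 0 N).filter fun n => k < n.primeFactors.card) ∪
      (((Ioc 0 N).filter fun n => Squarefree n ∧ N ≤ n ^ 2 ∧ ∀ p : ℕ, p.Prime → p ∣ n →
      p ≤ Y) ∪ Ioc 0 (Nat.sqrt N)) := by
    intro n hn
    obtain ⟨hn0, hsq, hE⟩ := mem_filter.mp hn
    rw [mem_union, mem_union, mem_filter, mem_filter]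
    by_cases h1 : k < n.primeFactors.card
    · exact Or.inl ⟨hn0, h1⟩
    right
    by_cases h2 : N ≤ n ^ 2
    · left
      refine ⟨hn0, hsq, h2, fun p hp hpn => (hE p hp hpn).le.trans ?_⟩
      rw [hY]
      push Not at h1
      exact Nat.pow_le_pow_right (by norm_num) (Nat.mul_le_mul (Nat.mul_le_mul_left _ h1)
        (Nat.pow_le_pow_right (by norm_num) h1))
    · right
      push Not at h2
      rw [mem_Ioc] at hn0 ⊢
      refine ⟨hn0.1, ?_⟩
      rw [Nat.le_sqrt, ← sq]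
      exact h2.le
  obtain ⟨A, hA⟩ : ∃ A : ℝ, A = ((Ioc 0 N).filter fun n => k < n.primeFactors.card).card :=
    ⟨_, rfl⟩
  obtain ⟨B, hB⟩ : ∃ B : ℝ, B = ((Ioc 0 N).filter fun n => Squarefree n ∧ N ≤ n ^ 2 ∧
      ∀ p : ℕ, p.Prime → p ∣ n → p ≤ Y).card := ⟨_, rfl⟩
  have hcount : (((Ioc 0 N).filter Exc).card : ℝ) ≤ A + (B + Nat.sqrt N) := by
    have h1 := (card_le_card hsub).trans ((card_union_le _ _).trans
      (Nat.add_le_add_left (card_union_le _ _) _))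
    rw [Nat.card_Ioc, Nat.sub_zero] at h1
    rw [hA, hB]
    exact_mod_cast h1
  have hA1 := hC N (by omega) k
  rw [← hA] at hA1
  have hB1 := card_smooth N Y (by omega) hY1
  rw [← hB, ← hL] at hB1
  have hA0 : 0 ≤ A := by rw [hA]; positivity
  have hB0 : 0 ≤ B := by rw [hB]; positivity
  -- first part
  have e1 : (2/3 : ℝ) * L ^ ((52:ℝ) / 100) ≤ (3/2) ^ k := by
    have h1 : L ^ ((52:ℝ) / 100) ≤ (3/2 : ℝ) ^ ((k:ℝ) + 1) := by
      rw [Real.rpow_def_of_pos hL0, Real.rpow_def_of_pos (by norm_num)]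
      apply Real.exp_le_exp.mpr
      have := log_three_half
      nlinarith
    rw [Real.rpow_add (by norm_num), Real.rpow_natCast, Real.rpow_one] at h1
    linarith
  have e2 : Real.sqrt (Real.log (N + 1)) ≤ 2 * L ^ ((1:ℝ) / 2) := by
    have h1 : Real.log ((N:ℝ) + 1) ≤ 2 * L := by
      have h2 : Real.log ((N:ℝ) + 1) ≤ Real.log ((N:ℝ) ^ 2) :=
        Real.log_le_log (by linarith) (by nlinarith)
      rw [Real.log_pow] at h2
      push_cast at h2
      exact h2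
    calc Real.sqrt (Real.log (N + 1)) ≤ Real.sqrt (2 ^ 2 * L) :=
          Real.sqrt_le_sqrt (by linarith)
      _ = 2 * L ^ ((1:ℝ) / 2) := by
          rw [Real.sqrt_mul (by norm_num), Real.sqrt_sq (by norm_num), Real.sqrt_eq_rpow]
  have hA2 : A * L ^ ((1:ℝ) / 50) ≤ 3 * C * N := by
    have h1 : A * ((2/3 : ℝ) * L ^ ((52:ℝ) / 100)) ≤ C * N * (2 * L ^ ((1:ℝ) / 2)) :=
      (mul_le_mul_of_nonneg_left e1 hA0).trans
        (hA1.trans (mul_le_mul_of_nonneg_left e2 (by positivity)))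
    have h2 : L ^ ((52:ℝ) / 100) = L ^ ((1:ℝ) / 50) * L ^ ((1:ℝ) / 2) := by
      rw [← Real.rpow_add hL0]
      norm_num
    rw [h2] at h1
    have h3 : 0 < L ^ ((1:ℝ) / 2) := Real.rpow_pos_of_pos hL0 _
    have h4 : (A * L ^ ((1:ℝ) / 50)) * L ^ ((1:ℝ) / 2) ≤ (3 * C * N) * L ^ ((1:ℝ) / 2) := by
      linarith
    exact le_of_mul_le_mul_right h4 h3
  -- second part
  have e3 : Real.log Y ≤ 800 * L ^ ((98:ℝ) / 100) := by
    have h2l := Real.log_two_lt_d9
    have h2p : 0 < Real.log 2 := Real.log_pos (by norm_num)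
    have h1 : Real.log Y = 30 * k * 2 ^ k * Real.log 2 := by
      rw [hY]
      push_cast
      rw [Real.log_pow]
      push_cast
      ring
    have h2 : (2:ℝ) ^ k ≤ L ^ ((93:ℝ) / 100) := by
      rw [← Real.rpow_natCast, Real.rpow_def_of_pos (by norm_num), Real.rpow_def_of_pos hL0]
      apply Real.exp_le_exp.mpr
      nlinarith
    have h3 : Real.log L ≤ L ^ ((5:ℝ) / 100) * 20 := by
      have := Real.log_le_rpow_div hL0.le (show (0:ℝ) < 5 / 100 by norm_num)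
      linarith
    have h4 : (k:ℝ) ≤ 80 / 3 * L ^ ((5:ℝ) / 100) := by linarith
    have h5 : L ^ ((98:ℝ) / 100) = L ^ ((5:ℝ) / 100) * L ^ ((93:ℝ) / 100) := by
      rw [← Real.rpow_add hL0]
      norm_num
    rw [h1, h5]
    have h6 : (k:ℝ) * 2 ^ k ≤ (80 / 3 * L ^ ((5:ℝ) / 100)) * L ^ ((93:ℝ) / 100) :=
      mul_le_mul h4 h2 (by positivity) (by positivity)
    have h7 : (0:ℝ) ≤ k * 2 ^ k := by positivity
    nlinarith
  have hB2 : B * L ^ ((1:ℝ) / 50) ≤ 2000 * N := by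
    have h4 : Real.log 4 ≤ 2 := by
      have : Real.log 4 = 2 * Real.log 2 := by
        rw [show (4:ℝ) = 2 ^ 2 by norm_num, Real.log_pow]
        norm_num
      have := Real.log_two_lt_d9
      linarith
    have h98 : 1 ≤ L ^ ((98:ℝ) / 100) := Real.one_le_rpow (by linarith) (by norm_num)
    have h5 : B * (L / 2) ≤ N * (1000 * L ^ ((98:ℝ) / 100)) :=
      hB1.trans (mul_le_mul_of_nonneg_left (by linarith) (by positivity))
    have h6 : L = L ^ ((1:ℝ) / 50) * L ^ ((98:ℝ) / 100) := by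
      rw [← Real.rpow_add hL0]
      norm_num
    have h7 : (B * L ^ ((1:ℝ) / 50)) * L ^ ((98:ℝ) / 100) ≤
        (2000 * N) * L ^ ((98:ℝ) / 100) := by
      calc (B * L ^ ((1:ℝ) / 50)) * L ^ ((98:ℝ) / 100) = B * L := by rw [mul_assoc, ← h6]
        _ ≤ _ := by linarith
    exact le_of_mul_le_mul_right h7 (by linarith)
  -- third part
  have hS2 : (Nat.sqrt N : ℝ) * L ^ ((1:ℝ) / 50) ≤ N := by
    have h1 : (Nat.sqrt N : ℝ) ≤ (N:ℝ) ^ ((1:ℝ) / 2) := by
      rw [← Real.sqrt_eq_rpow]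
      exact Real.nat_sqrt_le_real_sqrt
    have h2 : L ^ ((1:ℝ) / 50) ≤ (N:ℝ) ^ ((1:ℝ) / 2) := by
      calc L ^ ((1:ℝ) / 50) ≤ (N:ℝ) ^ ((1:ℝ) / 50) := by
            apply Real.rpow_le_rpow hL0.le _ (by norm_num)
            have := Real.log_le_sub_one_of_pos (show (0:ℝ) < N by linarith)
            linarith
        _ ≤ _ := Real.rpow_le_rpow_of_exponent_le (by linarith) (by norm_num)
    calc (Nat.sqrt N : ℝ) * L ^ ((1:ℝ) / 50) ≤ (N:ℝ) ^ ((1:ℝ) / 2) * (N:ℝ) ^ ((1:ℝ) / 2) :=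
          mul_le_mul h1 h2 hLp.le (by positivity)
      _ = N := by
          rw [← Real.rpow_add (by linarith)]
          norm_num
  calc (((Ioc 0 N).filter Exc).card : ℝ) * L ^ ((1:ℝ) / 50) ≤
      (A + (B + Nat.sqrt N)) * L ^ ((1:ℝ) / 50) := mul_le_mul_of_nonneg_right hcount hLp.le
    _ = A * L ^ ((1:ℝ) / 50) + (B * L ^ ((1:ℝ) / 50) + Nat.sqrt N * L ^ ((1:ℝ) / 50)) := by ring
    _ ≤ 3 * C * N + (2000 * N + N) := by linarith
    _ ≤ _ := by nlinarith

end Pool.Agent.CYE.H25
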