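import Pool.Agent.CYE.StmtsB
import Pool.Agent.CYE.StmtsC

/-! # Row EXC of squad CYE (MP_734b60_nt, Theorem K) -/

set_option autoImplicit false

open Polynomial IsLocalRing

namespace Pool.Agent.CYE.H25

open Pool.Agent.CYE Pool.Agent.CYD

/-- A primitive root modulo `p`. -/
theorem exists_prim (p : ℕ) (hp : p.Prime) :
    ∃ t : ℕ, ¬ p ∣ t ∧ orderOf (t : ZMod p) = p - 1 := by
  have : Fact p.Prime := ⟨hp⟩
  obtain ⟨x, hx⟩ := IsCyclic.exists_generator (α := (ZMod p)ˣ)
  have h1 : orderOf x = p - 1 := by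
    rw [orderOf_eq_card_of_forall_mem_zpowers hx, Nat.card_eq_fintype_card, ZMod.card_units]
  have h2 : (((x : ZMod p).val : ℕ) : ZMod p) = (x : ZMod p) := ZMod.natCast_zmod_val _
  refine ⟨(x : ZMod p).val, ?_, ?_⟩
  · rw [← ZMod.natCast_eq_zero_iff, h2]
    exact x.ne_zero
  · rw [h2, orderOf_units, h1]

/-- Row EXC. -/
theorem exc (baf : BafStmt) (ari : AriStmt) (spo : SpoStmt) (sch : SchStmt) (van : VanStmt)
    (cls : ClsStmt) (gdc : GdcStmt) : ExcStmt := by
  classical
  intro ι _ _ q _ p m g h K _ _ _ A z α hpA hz hSit T hT hall s S J hS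
  have hF := hSit.F
  have hp := hF.hp
  have hchr : CharP (ResidueField A) p := hSit.chr
  obtain ⟨t, hpt, hord⟩ := exists_prim p hp
  refine ⟨(S.filter fun b => ¬ Gd m α J T b s).card, (S.filter fun b => Gd m α J T b s).card,
    ?_, ?_, ?_⟩
  · rw [add_comm, Finset.card_filter_add_card_filter_not]
  · refine gdc ι q p m g h (ResidueField A) (residue A z) α hSit T hT s _ J fun b hb => ?_
    rw [Finset.mem_filter] at hb
    exact ⟨(hS b hb.1).1, (hS b hb.1).2.1, hb.2⟩
  · refine cls ι q p m g h (ResidueField A) (residue A z) α hSit T hT s _ _ fun b hb => ?_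
    rw [Finset.mem_filter] at hb
    obtain ⟨hbS, hgd⟩ := hb
    obtain ⟨hb1, hb2, hZ⟩ := hS b hbS
    obtain ⟨-, -, hc0, hne, hpole⟩ := spo ι q p m g h (ResidueField A) (residue A z) α hSit T hT b s
      hb1 hb2
    refine ⟨hb1, hb2, ?_, ?_⟩
    · obtain ⟨c, hc⟩ := ari ι q p m g h K A z α hpA hz hSit T hT hall b s hb1 hb2 J hgd t hpt
      have h1 := sch (ResidueField A) p t (FN m g h α T b s).1 (FN m g h α T b s).2 c
        (p - 2 - 2 ^ (T.length + 1) * J) hp (baf p m g h hF).1 hord hne hpole (Nat.sub_le _ _) hc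
      have h2 : p - 2 - 2 ^ (T.length + 1) * J - 13 = p - 15 - 2 ^ (T.length + 1) * J := by omega
      rw [h2] at h1
      exact h1
    · intro h0
      exact hZ (van (ResidueField A) p (FN m g h α T b s).1 (FN m g h α T b s).2 hp hc0 h0)

end Pool.Agent.CYE.H25
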