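import Pool.Agent.Helper25_CYE.Dens2
import Pool.Agent.CYE.StmtsG

/-! # Theorem K (MP_734b60_nt): the consequences of the strong form. -/

set_option autoImplicit false

open Finset Polynomial

namespace Pool.Agent.CYE.H25

open Pool.Agent.CYE

/-- All but finitely many squarefree `n` with `k` prime factors. -/
theorem thk_of_th2 (h : Th2Stmt) : ThkStmt := by
  intro n hn hs hk
  have hn0 : n ≠ 0 := by omega
  have hne : n.primeFactors.Nonempty := Nat.nonempty_primeFactors.mpr (by omega)
  obtain ⟨p, hp, hmax⟩ := n.primeFactors.exists_max_image (fun q => q) hne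
  have hc : n.primeFactors.card ≠ 0 := card_ne_zero.mpr hne
  have h1 : n ≤ p ^ n.primeFactors.card := by
    calc n = ∏ q ∈ n.primeFactors, q := (Nat.prod_primeFactors_of_squarefree hs).symm
      _ ≤ ∏ _q ∈ n.primeFactors, p := prod_le_prod' fun q hq => hmax q hq
      _ = _ := by rw [prod_const]
  refine h n p hs (Nat.prime_of_mem_primeFactors hp) (Nat.dvd_of_mem_primeFactors hp) ?_
  have h2 : (2 ^ (30 * n.primeFactors.card * 2 ^ n.primeFactors.card)) ^ n.primeFactors.card ≤
      p ^ n.primeFactors.card := by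
    calc (2 ^ (30 * n.primeFactors.card * 2 ^ n.primeFactors.card)) ^ n.primeFactors.card =
        2 ^ (30 * n.primeFactors.card ^ 2 * 2 ^ n.primeFactors.card) := by
          rw [← pow_mul]
          congr 1
          ring
      _ ≤ _ := hk.trans h1
  exact (Nat.pow_le_pow_iff_left hc).mp h2

/-- The number of the exceptions up to `N`. -/
theorem count_of_th2 (h : Th2Stmt) : ∃ C : ℝ, ∀ N : ℕ, 2 ≤ N →
    ({n : ℕ | n ≤ N ∧ 3 ≤ n ∧ Squarefree n ∧
      ¬ Irreducible (derivative (cyclotomic n ℚ))}.ncard : ℝ) ≤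
      C * N / Real.log N ^ ((1:ℝ) / 50) := by
  classical
  obtain ⟨C, -, hC⟩ := exc_count
  refine ⟨C, fun N hN => le_trans ?_ (hC N hN)⟩
  have hsub : {n : ℕ | n ≤ N ∧ 3 ≤ n ∧ Squarefree n ∧
      ¬ Irreducible (derivative (cyclotomic n ℚ))} ⊆ ((Ioc 0 N).filter Exc : Finset ℕ) := by
    rintro n ⟨hnN, hn3, hsq, hni⟩
    rw [Finset.mem_coe, mem_filter, mem_Ioc]
    refine ⟨⟨by omega, hnN⟩, hsq, fun p hp hpn => ?_⟩
    by_contra hlt
    push Not at hlt
    exact hni (h n p hsq hp hpn hlt)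
  have h1 := Set.ncard_le_ncard hsub (Finset.finite_toSet _)
  rw [Set.ncard_coe_finset] at h1
  exact_mod_cast h1

end Pool.Agent.CYE.H25
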