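import Pool.Agent.CYE.StmtsG

/-! # Row TH2 of squad CYE (MP_734b60_nt, Theorem K) -/

set_option autoImplicit false

open Polynomial

namespace Pool.Agent.CYE.H25

open Pool.Agent.CYE Pool.Agent.CYD

/-- The odd case. -/
theorem th2_odd (fi2 : Fi2Stmt) (n p : ℕ) (hs : Squarefree n) (ho : Odd n) (hp : p.Prime)
    (hpn : p ∣ n) (hk : 2 ^ (30 * n.primeFactors.card * 2 ^ n.primeFactors.card) ≤ p) :
    Irreducible (derivative (cyclotomic n ℚ)) := by
  have hn0 : n ≠ 0 := hs.ne_zero
  have hne : n.primeFactors.Nonempty := ⟨p, Nat.mem_primeFactors.mpr ⟨hp, hpn, hn0⟩⟩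
  obtain ⟨r, hr, hmax⟩ := n.primeFactors.exists_max_image (fun q => q) hne
  have hrp : r.Prime := Nat.prime_of_mem_primeFactors hr
  have hpr : p ≤ r := hmax p (Nat.mem_primeFactors.mpr ⟨hp, hpn, hn0⟩)
  obtain ⟨m, hm⟩ := Nat.dvd_of_mem_primeFactors hr
  have hodd : Odd r ∧ Odd m := by
    rw [hm] at ho
    exact Nat.odd_mul.mp ho
  have hr3 : 3 ≤ r := by
    have h2 := hrp.two_le
    obtain ⟨k, hk⟩ := hodd.1
    omega
  by_cases hm1 : m = 1
  · rw [hm1, mul_one] at hm
    rw [hm]
    exact prm r hrp (by omega)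
  · have hm3 : 3 ≤ m := by
      obtain ⟨k, hk⟩ := hodd.2
      omega
    have hn3 : 3 ≤ n := by
      rw [hm]
      nlinarith
    refine red' n hn3 ho hs fun g h hF => ?_
    have hcop : Nat.Coprime r m := by
      rw [hm] at hs
      exact Nat.coprime_of_squarefree_mul hs
    have hFm : Fm r m g h := by
      refine ⟨hrp, hm3, fun l hl hlm => ?_, by rw [← hm]; exact hF⟩
      have h1 : l ≤ r := hmax l (Nat.mem_primeFactors.mpr
        ⟨hl, hlm.trans (by rw [hm]; exact Dvd.intro_left r rfl), hn0⟩)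
      refine lt_of_le_of_ne h1 fun h2 => ?_
      rw [h2] at hlm
      have h3 := Nat.Coprime.eq_one_of_dvd hcop hlm
      omega
    have h1 := fi2 r m g h hFm
    rw [← hm] at h1
    omega

/-- Row TH2. -/
theorem th2 (fi2 : Fi2Stmt) : Th2Stmt := by
  intro n p hs hp hpn hk
  have hn0 : n ≠ 0 := hs.ne_zero
  rcases Nat.even_or_odd' n with ⟨n', h | h⟩
  · -- even order
    have hn'n : n' ∣ n := by rw [h]; exact Dvd.intro_left 2 rfl
    have hs' : Squarefree n' := hs.squarefree_of_dvd hn'n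
    have hodd : Odd n' := by
      rw [← Nat.not_even_iff_odd]
      rintro ⟨c, hc⟩
      have h4 : 2 * 2 ∣ n := by
        rw [h, hc]
        exact ⟨c, by ring⟩
      have := hs 2 h4
      rw [Nat.isUnit_iff] at this
      omega
    have hcard : 0 < n.primeFactors.card :=
      Finset.card_pos.mpr ⟨p, Nat.mem_primeFactors.mpr ⟨hp, hpn, hn0⟩⟩
    have hp2 : p ≠ 2 := by
      intro hp2
      rw [hp2] at hk
      have h1 : 2 ≤ 30 * n.primeFactors.card * 2 ^ n.primeFactors.card := by
        have : 1 ≤ 2 ^ n.primeFactors.card := Nat.one_le_two_pow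
        nlinarith
      have h2 : 2 ^ 2 ≤ 2 ^ (30 * n.primeFactors.card * 2 ^ n.primeFactors.card) :=
        Nat.pow_le_pow_right (by norm_num) h1
      omega
    have hpn' : p ∣ n' := by
      rw [h] at hpn
      rcases hp.dvd_mul.mp hpn with h1 | h1
      · exact absurd ((Nat.prime_dvd_prime_iff_eq hp Nat.prime_two).mp h1) hp2
      · exact h1
    have hle : n'.primeFactors.card ≤ n.primeFactors.card :=
      Finset.card_le_card (Nat.primeFactors_mono hn'n hn0)
    have hk' : 2 ^ (30 * n'.primeFactors.card * 2 ^ n'.primeFactors.card) ≤ p := by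
      refine le_trans (Nat.pow_le_pow_right (by norm_num) ?_) hk
      exact Nat.mul_le_mul (Nat.mul_le_mul_left _ hle) (Nat.pow_le_pow_right (by norm_num) hle)
    have h1 := th2_odd fi2 n' p hs' hodd hp hpn' hk'
    rw [h]
    refine dbl n' hodd ?_ h1
    have := Nat.le_of_dvd (Nat.pos_of_ne_zero hs'.ne_zero) hpn'
    have := hp.two_le
    omega
  · exact th2_odd fi2 n p hs ⟨n', h⟩ hp hpn hk

end Pool.Agent.CYE.H25
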