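import Pool.Agent.Helper10_CYE.DIF
import Pool.Agent.Helper15_CYE.GDC
import Pool.Agent.Helper20_CYE.TYC
import Pool.Agent.Helper21_CYE.ARI
import Pool.Agent.Helper21_CYE.Deg
import Pool.Agent.Helper21_CYE.RPV
import Pool.Agent.Helper25_CYE.Core
import Pool.Agent.Helper25_CYE.Fin
import Pool.Agent.Helper31_CYE.UNC
import Pool.Agent.Helper40_CYE.NU2
import Pool.Agent.Helper44_CYE.COE
import Pool.Agent.Helper44_CYE.FXN
import Pool.Agent.Helper49_CYE.CJM
import Pool.Agent.Helper49_CYE.PEI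
import Pool.Agent.Helper51_CYE.RowMin
import Pool.Agent.Helper51_CYE.RowRbb
import Pool.Agent.Helper76_CYE.DGB
import Pool.Agent.Helper77_CYE.BAF
import Pool.Agent.Helper81_CYE.FI2
import Pool.Agent.Helper81_CYE.GEN
import Pool.Agent.Helper81_CYE.SPO
import Pool.Agent.Helper83_CYE.AFF
import Pool.Agent.Helper84_CYE.Cls
import Pool.Agent.Helper87_CYE.COL
import Pool.Agent.Helper89_CYE.WRG
import Pool.Agent.Helper91_CYE.YEX
import Pool.Agent.Helper92_CYE.Glb
import Pool.Agent.Helper92_CYE.Rows1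
import Pool.Agent.Helper92_CYE.Rows2
import Pool.Agent.Helper56_CYE.FCM
import Pool.Agent.Helper56_CYE.EVL
import Pool.Agent.Helper52_CYE.SIE
import Pool.Agent.Helper25_CYE.TH2
import Pool.Agent.Helper25_CYE.EXC

/-! # Theorem K (MP_734b60_nt): the assembly -/

set_option autoImplicit false

namespace Pool.Agent.CYE.H25

open Pool.Agent.CYE

/-- Theorem K. -/
theorem thK : Th2Stmt :=
  chain H77.baf fcm H51R.min evl H83.aff H49.cjm H51R.rbb H89.wrg H21.rpv H21.ari H81.spo
    H92.sch H92.sci H92.van H92.glb H84.cls H15.gdc exc (fun _ h => H44.fxn h) H92.pel H49.pei H91.yex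
    H44.coe H87.col H92.swz H81.gen H10.dif H92.cnt_row H31.unc H20.tyc H76.dgb H21.deg H52.sie
    H40.nu2 H81.fi2 th2

end Pool.Agent.CYE.H25
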